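import Mathlib
import Pool.Agent.H115G.All
import Pool.Agent.H39R3.Attach

/-!
# The smallest graceful tree containing a given tree: `γ(T) = (1 + o(1)) |E(T)|`

For every `ε > 0` there is a constant `C` such that `|E(T)| ≤ γ(T) ≤ (1 + ε) |E(T)| + C` for every
finite tree `T`. Moreover a graceful tree of that size containing `T` is obtained by attaching at one
vertex of `T`, which may be prescribed, `k` pendant edges and `k` pendant paths of length two.

The proof uses the theorem on large trees with a linear broom of the starting files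
(`H115G.broom_T`).
-/

namespace Pool.Agent.Results.MP_128071_co.AsymptoticGamma

open Pool.Agent.H39R3

/-- A graph with `m` edges is graceful if there is an injective map `f` of the vertices to
`{0, 1, …, m}` such that the edge labels `|f u - f v|` are exactly `1, …, m`. -/
def Graceful {V : Type} (T : SimpleGraph V) : Prop :=
  ∃ f : V → ℕ, Function.Injective f ∧ (∀ v, f v ≤ T.edgeSet.ncard) ∧
    {d : ℕ | ∃ u v : V, T.Adj u v ∧ d = Int.natAbs ((f u : ℤ) - (f v : ℤ))} =
      Set.Icc 1 T.edgeSet.ncard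

/-- The numbers of edges of the finite graceful trees which have a subgraph isomorphic to `T`. -/
def gracefulSizes {V : Type} (T : SimpleGraph V) : Set ℕ :=
  {k | ∃ (W : Type) (_ : Fintype W) (T' : SimpleGraph W),
    T'.IsTree ∧ Graceful T' ∧ T.IsContained T' ∧ T'.edgeSet.ncard = k}

/-- `γ(T)`: the least number of edges of a graceful tree which has a subgraph isomorphic to `T`. -/
noncomputable def gamma {V : Type} (T : SimpleGraph V) : ℕ := sInf (gracefulSizes T)

theorem le_of_mem {V : Type} {T : SimpleGraph V} {k : ℕ}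
    (hk : k ∈ gracefulSizes T) : T.edgeSet.ncard ≤ k := by
  classical
  obtain ⟨W, _, T', _, _, ⟨φ⟩, rfl⟩ := hk
  have hinj : Function.Injective φ := φ.injective
  have h1 : Sym2.map φ '' T.edgeSet ⊆ T'.edgeSet := by
    rintro _ ⟨e, he, rfl⟩
    induction e using Sym2.ind with
    | _ x y =>
      rw [Sym2.map_mk, SimpleGraph.mem_edgeSet]
      exact φ.toHom.map_adj ((SimpleGraph.mem_edgeSet T).1 he)
  calc T.edgeSet.ncard = (Sym2.map φ '' T.edgeSet).ncard :=
        (Set.ncard_image_of_injective _ (Sym2.map.injective hinj)).symm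
    _ ≤ T'.edgeSet.ncard := Set.ncard_le_ncard h1 (Set.toFinite _)

/-- For every `ε > 0` there is a constant `C` such that every finite tree `T` satisfies
`|E(T)| ≤ γ(T) ≤ (1 + ε) |E(T)| + C` (and `γ(T)` is attained); moreover for every vertex `v` of `T`
there is `k` with `3 k ≤ ε |E(T)| + C` such that `T` with `k` pendant edges and `k` pendant paths of
length two attached at `v` is a graceful tree (it has `|E(T)| + 3 k` edges). -/
theorem result : ∀ ε : ℝ, 0 < ε → ∃ C : ℝ, ∀ (V : Type) [Fintype V] (T : SimpleGraph V), T.IsTree →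
    gamma T ∈ gracefulSizes T ∧
    T.edgeSet.ncard ≤ gamma T ∧
    (gamma T : ℝ) ≤ (1 + ε) * T.edgeSet.ncard + C ∧
    ∀ v : V, ∃ k : ℕ, 3 * (k : ℝ) ≤ ε * T.edgeSet.ncard + C ∧
      (attach T v k k).IsTree ∧ (attach T v k k).edgeSet.ncard = T.edgeSet.ncard + 3 * k ∧
      Graceful (attach T v k k) := by
  intro ε hε
  set δ : ℝ := ε / (3 * (1 + ε)) with hδ
  have hδ0 : 0 < δ := by positivity
  obtain ⟨K, hK⟩ := H115G.broom_T δ hδ0
  refine ⟨3 * K + 3, ?_⟩
  intro V _ T hT
  classical
  set m : ℕ := T.edgeSet.ncard with hm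
  have hmain : ∀ v : V, ∃ k : ℕ, 3 * (k : ℝ) ≤ ε * m + (3 * K + 3) ∧
      (attach T v k k).IsTree ∧ (attach T v k k).edgeSet.ncard = m + 3 * k ∧
      Graceful (attach T v k k) := by
    intro v
    set k : ℕ := ⌈ε * m / 3⌉₊ + K with hk
    have hm0 : (0 : ℝ) ≤ m := Nat.cast_nonneg m
    have hk1 : ε * m / 3 + K ≤ k := by
      rw [hk]
      push_cast
      have := Nat.le_ceil (ε * m / 3)
      linarith
    have hk2 : (k : ℝ) ≤ ε * m / 3 + 1 + K := by
      rw [hk]
      push_cast
      have := (Nat.ceil_lt_add_one (show 0 ≤ ε * m / 3 by positivity)).le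
      linarith
    obtain ⟨ht, hc⟩ := attach_isTree_card (v := v) (a := k) (b := k) hT
    rw [← hm] at hc
    have hc' : (attach T v k k).edgeSet.ncard = m + 3 * k := by
      rw [hc]; ring
    have hbig : K ≤ (attach T v k k).edgeSet.ncard := by
      rw [hc']
      have : K ≤ k := Nat.le_add_left _ _
      omega
    have hfrac : δ * ((attach T v k k).edgeSet.ncard : ℝ) ≤ k := by
      rw [hc']
      push_cast
      have h1 : δ * (3 * (1 + ε)) = ε := by
        rw [hδ]; field_simp
      have hK0 : (0 : ℝ) ≤ K := Nat.cast_nonneg K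
      have hkk : ε * m ≤ 3 * k := by linarith
      -- δ (m + 3k) ≤ k
      have h2 : (3 * (1 + ε)) * (δ * (m + 3 * k)) ≤ (3 * (1 + ε)) * k := by
        calc (3 * (1 + ε)) * (δ * (m + 3 * k)) = (δ * (3 * (1 + ε))) * (m + 3 * k) := by ring
          _ = ε * (m + 3 * k) := by rw [h1]
          _ = ε * m + 3 * ε * k := by ring
          _ ≤ 3 * k + 3 * ε * k := by linarith
          _ = (3 * (1 + ε)) * k := by ring
      exact le_of_mul_le_mul_left h2 (by positivity)
    refine ⟨k, by linarith, ht, hc', ?_⟩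
    refine hK _ (attach T v k k) ht hbig (Sum.inl v) (hfrac.trans ?_) (hfrac.trans ?_)
    · exact_mod_cast leaf_count
    · exact_mod_cast mid_count
  haveI : Nonempty V := hT.connected.nonempty
  obtain ⟨k, hk1, hk2, hk3, hk4⟩ := hmain (Classical.arbitrary V)
  have hmem : (attach T (Classical.arbitrary V) k k).edgeSet.ncard ∈ gracefulSizes T := by
    refine ⟨_, inferInstance, attach T (Classical.arbitrary V) k k, hk2, hk4, ⟨?_⟩, rfl⟩
    exact ⟨⟨Sum.inl, fun {a b} h => h⟩, Sum.inl_injective⟩
  have hne : (gracefulSizes T).Nonempty := ⟨_, hmem⟩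
  have hg : gamma T ∈ gracefulSizes T := Nat.sInf_mem hne
  refine ⟨hg, le_of_mem hg, ?_, hmain⟩
  have h1 : gamma T ≤ m + 3 * k := by
    rw [← hk3]
    exact Nat.sInf_le hmem
  have h2 : (gamma T : ℝ) ≤ m + 3 * k := by exact_mod_cast h1
  linarith

end Pool.Agent.Results.MP_128071_co.AsymptoticGamma
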