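import Mathlib
import Pool.Agent.H115R2.Base
import Pool.Agent.H904R5.Main

/-!
# The smallest graceful tree containing a given tree: `γ(T) ≤ 2 |E(T)| - diam(T)`

Every finite tree `T` is a subtree of a tree with exactly `2 |E(T)| - diam(T)` edges which has an
alpha-labelling (in particular it is graceful).

Proof: root `T` at an end of a longest path and order every level compatibly with the parents, the
vertex of the path being the last one of its level. Every vertex `y` outside the path gets one new
vertex `y'`, which is joined to `z'`, where `z` is the last vertex of the next level whose parent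
is at most `y`, or, if there is no such `z`, to the last vertex of the level of `y`. The two colour
classes of the big tree are ordered as follows: level `t`, the new vertices of level `t + 1`,
level `t + 2`, the new vertices of level `t + 3`, and so on. If `i` and `j` are the positions of
the ends of an edge in the two colour classes, then the sums `i + j` are the numbers
`0, 1, ..., N - 1`, each exactly once, where `N` is the number of edges.
-/

set_option autoImplicit false

namespace Pool.Agent.Results.MP_128071_co.TwiceMinusDiam

open Pool.Agent.H904R5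

/-- `f` is an alpha-labelling of the graph `T` with `m` edges: `f` is an injective map of the
vertices to `{0, 1, …, m}`, the edge labels `|f u - f v|` are exactly `1, …, m`, and there is a
threshold `k` such that every edge joins a vertex with label at most `k` to a vertex with label
greater than `k`. -/
def IsAlphaLabelling {W : Type} (T : SimpleGraph W) (f : W → ℕ) : Prop :=
  Function.Injective f ∧ (∀ v, f v ≤ T.edgeSet.ncard) ∧
    {d : ℕ | ∃ u v : W, T.Adj u v ∧ d = Int.natAbs ((f u : ℤ) - (f v : ℤ))} =
      Set.Icc 1 T.edgeSet.ncard ∧
    ∃ k : ℕ, ∀ u v : W, T.Adj u v → (f u ≤ k ∧ k < f v) ∨ (f v ≤ k ∧ k < f u)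

/-- A graph with `m` edges is graceful if there is an injective map `f` of the vertices to
`{0, 1, …, m}` such that the edge labels `|f u - f v|` are exactly `1, …, m`. -/
def Graceful {V : Type} (T : SimpleGraph V) : Prop :=
  ∃ f : V → ℕ, Function.Injective f ∧ (∀ v, f v ≤ T.edgeSet.ncard) ∧
    {d : ℕ | ∃ u v : V, T.Adj u v ∧ d = Int.natAbs ((f u : ℤ) - (f v : ℤ))} =
      Set.Icc 1 T.edgeSet.ncard

/-- `γ(T)`: the least number of edges of a finite graceful tree which has a subgraph isomorphic
to `T`. -/
noncomputable def gamma {V : Type} (T : SimpleGraph V) : ℕ :=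
  sInf {k | ∃ (W : Type) (_ : Fintype W) (T' : SimpleGraph W),
    T'.IsTree ∧ Graceful T' ∧ T.IsContained T' ∧ T'.edgeSet.ncard = k}

/-- The rooted tree given by a tree. -/
theorem exists_RT {V : Type} [Fintype V] (T : SimpleGraph V) (hT : T.IsTree) :
    ∃ R : RT V, R.h = T.diam ∧ ∀ a b, T.Adj a b →
      (a ≠ R.r ∧ R.par a = b) ∨ (b ≠ R.r ∧ R.par b = a) := by
  classical
  have hne : Nonempty V := hT.connected.nonempty
  obtain ⟨u, v, huv⟩ := T.exists_dist_eq_diam
  obtain ⟨par, hp1, hp2⟩ := Pool.Agent.H115R2.exists_parent T hT u
  have hit : ∀ k, k ≤ T.diam → T.dist u (par^[k] v) = T.diam - k := by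
    intro k
    induction k with
    | zero =>
      intro _
      simpa using huv
    | succ k ih =>
      intro hk
      have h1 := ih (by omega)
      have h2 : par^[k] v ≠ u := by
        intro h
        rw [h, SimpleGraph.dist_self] at h1
        omega
      have h3 := (hp1 _ h2).2
      rw [Function.iterate_succ_apply']
      omega
  refine ⟨{ r := u, par := par, lev := fun x => T.dist u x, h := T.diam,
            pth := fun t => par^[T.diam - t] v, lev_r := SimpleGraph.dist_self,
            lev_par := fun x hx => (hp1 x hx).2,
            lev_pth := fun t ht => by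
              show T.dist u (par^[T.diam - t] v) = t
              rw [hit _ (by omega)]
              omega,
            par_pth := fun t ht => by
              show par (par^[T.diam - (t + 1)] v) = par^[T.diam - t] v
              rw [← Function.iterate_succ_apply' par]
              congr 1
              have : (T.diam - (t + 1)).succ = T.diam - t := by omega
              rw [this],
            lev_le := fun x => by
              apply SimpleGraph.dist_le_diam
              exact SimpleGraph.connected_iff_ediam_ne_top.1 hT.connected }, rfl, ?_⟩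
  intro a b hab
  rcases hT.dist_eq_dist_add_one_of_adj u hab with h | h
  · left
    refine ⟨?_, hp2 a b hab h⟩
    rintro rfl
    simp at h
  · right
    refine ⟨?_, hp2 b a hab.symm h⟩
    rintro rfl
    simp at h

/-- Every finite tree `T` is isomorphic to a subgraph of a finite tree with exactly
`2 |E(T)| - diam(T)` edges which has an alpha-labelling; in particular
`γ(T) ≤ 2 |E(T)| - diam(T)`. -/
theorem result (V : Type) [Fintype V] (T : SimpleGraph V) (hT : T.IsTree) :
    (∃ (W : Type) (_ : Fintype W) (T' : SimpleGraph W) (f : W → ℕ),
      T'.IsTree ∧ IsAlphaLabelling T' f ∧ T.IsContained T' ∧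
      T'.edgeSet.ncard + T.diam = 2 * T.edgeSet.ncard) ∧
    gamma T + T.diam ≤ 2 * T.edgeSet.ncard := by
  classical
  obtain ⟨R, hh, hadj⟩ := exists_RT T hT
  obtain ⟨h1, ⟨f, hf1, hf2, hf3, hf4⟩, h3⟩ := R.main
  have hcard := Pool.Agent.H115R2.ncard_edge T hT
  have hE : (PG (Sum.inl R.r) R.par').edgeSet.ncard + T.diam = 2 * T.edgeSet.ncard := by
    rw [← hh]
    omega
  have hcont : T.IsContained (PG (Sum.inl R.r) R.par') := by
    refine ⟨⟨⟨Sum.inl, ?_⟩, Sum.inl_injective⟩⟩
    intro a b hab
    rw [PG_adj R.rk_lt]
    rcases hadj a b hab with ⟨h4, h5⟩ | ⟨h4, h5⟩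
    · left
      exact ⟨fun h => h4 (Sum.inl_injective h), by rw [← h5]; rfl⟩
    · right
      exact ⟨fun h => h4 (Sum.inl_injective h), by rw [← h5]; rfl⟩
  refine ⟨⟨_, inferInstance, PG (Sum.inl R.r) R.par', f, h1, ⟨hf1, hf2, hf3, hf4⟩, hcont, hE⟩, ?_⟩
  have hle : gamma T ≤ (PG (Sum.inl R.r) R.par').edgeSet.ncard :=
    Nat.sInf_le ⟨_, inferInstance, _, h1, ⟨f, hf1, hf2, hf3⟩, hcont, rfl⟩
  omega

end Pool.Agent.Results.MP_128071_co.TwiceMinusDiam
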